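import Pool.Agent.H76.SW.T

set_option autoImplicit false

namespace Pool.Agent.H87.SW
open Pool.Agent.H76.SW Relation

/-- The pairs of variables of one level between which there are facts. -/
def Alw (σ : Bool) (v v' : Bool ⊕ Bool) : Prop :=
  v = v' ∨ (∃ c, v = Sum.inl c ∧ v' = Sum.inr (xor c σ)) ∨
    (∃ c, v = Sum.inr (xor c σ) ∧ v' = Sum.inl c) ∨ ∃ c c', v = Sum.inr c ∧ v' = Sum.inr c'

/-- The graph of one level. -/
def gGr (σ : Bool) : SimpleGraph (Bool ⊕ Bool) where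
  Adj v v' := v ≠ v' ∧ Alw σ v v'
  symm := ⟨fun v v' h => ⟨h.1.symm, by
    rcases h.2 with h | ⟨c, h1, h2⟩ | ⟨c, h1, h2⟩ | ⟨c, c', h1, h2⟩
    · exact Or.inl h.symm
    · exact Or.inr (Or.inr (Or.inl ⟨c, h2, h1⟩))
    · exact Or.inr (Or.inl ⟨c, h2, h1⟩)
    · exact Or.inr (Or.inr (Or.inr ⟨c', c, h2, h1⟩))⟩⟩
  loopless := ⟨fun _ h => h.1 rfl⟩

/-- The position of a variable on the path. -/
def gPos (σ : Bool) : Bool ⊕ Bool → Fin 4
  | .inl c => if c then 3 else 0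
  | .inr c => if xor c σ then 2 else 1

lemma gPos_inj (σ : Bool) : Function.Injective (gPos σ) := by
  rintro (a | a) (b | b) h <;> revert h <;> cases σ <;> cases a <;> cases b <;> decide

lemma gGr_tw (h4 : U_d7_path) (h5 : U_d9_mono) (σ : Bool) {k : ℕ} (hk : 1 ≤ k) :
    TreeWidthLE (gGr σ) k := by
  have h := h4 (n := 3) hk
  refine h5 _ (gGr σ) ⟨gPos σ, gPos_inj σ⟩ ?_ k k le_rfl h
  intro x y hxy
  obtain ⟨hne, hal⟩ := hxy
  change gPos σ x ≠ gPos σ y ∧ ∃ i : Fin 3, (i.castSucc = gPos σ x ∧ i.succ = gPos σ y) ∨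
    (i.castSucc = gPos σ y ∧ i.succ = gPos σ x)
  refine ⟨fun h => hne (gPos_inj σ h), ?_⟩
  rcases hal with h | ⟨c, rfl, rfl⟩ | ⟨c, rfl, rfl⟩ | ⟨c, c', rfl, rfl⟩
  · exact absurd h hne
  · revert c; cases σ <;> decide
  · revert c; cases σ <;> decide
  · revert c c'; cases σ <;> decide

/-- Positions of the variables of one level. -/
def pn {P : Type} (pr : ℕ → Bool → P) (j : ℕ) (v : Bool ⊕ Bool) : P :=
  Sum.elim (pr j) (pr (j + 1)) v

/-- The facts of one level hold. -/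
def PF {A P Q V : Type} (gs : P → Option (A × Bool) → P → Prop) (tr : Q → A × Bool → Q → Prop)
    (pr : ℕ → Bool → P) (σ : ℕ → Bool) (E : V → A → V → Prop) (hh : ℕ → Bool → V) (j : ℕ) :
    Prop :=
  ∀ v v', Alw (σ j) v v' → ∀ s s', rho gs tr (pn pr j v, s) (pn pr j v', s') →
    Reach E tr (pn hh j v, s) (pn hh j v', s')

lemma g3_ind (h1 : U_s5_lift) (h2 : U_q4_body) (h3 : U_q5_unfold) (h4 : U_d7_path)
    (h5 : U_d9_mono) {A P Q : Type} [Fintype Q] (k : ℕ) (hk : 1 ≤ k)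
    (gs : P → Option (A × Bool) → P → Prop) (hs : Symm gs) (tr : Q → A × Bool → Q → Prop)
    (bd nn : ℕ) (δ' : RQ A) (hw : δ'.Width k) (hS : δ'.Simple) (hb : δ'.size ≤ bd)
    (hF : IsFQ tr nn δ') (N : ℕ) : ∀ (pr : ℕ → Bool → P) (σ : ℕ → Bool),
    δ'.Sat (canon gs) (cl gs (pr N false)) (cl gs (pr N true)) →
    ∃ δ : RQ A, δ.Width k ∧ δ.Simple ∧ δ.size ≤ N * (1 + bsz 4 (Fintype.card Q) 1) + bd ∧
      IsFQ tr (4 * N + nn) δ ∧ δ.Sat (canon gs) (cl gs (pr 0 false)) (cl gs (pr 0 true)) ∧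
      ∀ (V : Type) (E : V → A → V → Prop) (h : Bool → V), δ.Sat E (h false) (h true) →
        ∃ hh : ℕ → Bool → V, hh 0 = h ∧ δ'.Sat E (hh N false) (hh N true) ∧
          ∀ j, j < N → PF gs tr pr σ E hh j := by
  induction N with
  | zero =>
    intro pr σ hsat
    refine ⟨δ', hw, hS, by simpa using hb, by simpa using hF, hsat, ?_⟩
    intro V E h hδ
    exact ⟨fun _ => h, rfl, hδ, fun j hj => absurd hj (Nat.not_lt_zero j)⟩
  | succ N ih =>
    intro pr σ hsat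
    obtain ⟨δs, ws, ss, bs, fs, cs, us⟩ := ih (fun j => pr (j + 1)) (fun j => σ (j + 1)) hsat
    set F : Set (((Bool ⊕ Bool) × Q) × ((Bool ⊕ Bool) × Q)) :=
      {x | Alw (σ 0) x.1.1 x.2.1 ∧ rho gs tr (pn pr 0 x.1.1, x.1.2) (pn pr 0 x.2.1, x.2.2)}
      with hFd
    obtain ⟨b, e, hbf, hbS, hbs, hbt⟩ := h2 tr (Bool ⊕ Bool) F 1 (fun _ => Sum.inr false)
      (fun _ => Sum.inr true)
    have hcard : Fintype.card (Bool ⊕ Bool) = 4 := by decide
    have hbn : b.n = 4 := by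
      have := Fintype.card_congr e
      rw [hcard, Fintype.card_fin] at this
      exact this.symm
    rw [hcard] at hbs
    obtain ⟨hunf, -⟩ := h3 tr b _ _ _ hbf (fun _ => δs) (4 * N + nn) (fun _ => fs)
      (4 * (N + 1) + nn) (by rw [hbn]; omega)
    refine ⟨RQ.cq 1 b (fun _ => δs) (e (Sum.inl false)) (e (Sum.inl true)), ?_, ?_, ?_,
      hunf _ _, ?_, ?_⟩
    · refine ⟨hbt (gGr (σ 0)) k ?_ ?_ (gGr_tw h4 h5 (σ 0) hk), fun _ => ws⟩
      · intro x s y s' hxy hne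
        exact ⟨hne, hxy.1⟩
      · intro j _
        exact ⟨by simp, Or.inr (Or.inr (Or.inr ⟨false, true, rfl, rfl⟩))⟩
    · exact ⟨hbS, fun _ => ss⟩
    · change 1 + b.size + ∑ _j : Fin 1, δs.size ≤ _
      rw [Finset.sum_const, Finset.card_univ, Fintype.card_fin, one_smul]
      have : (N + 1) * (1 + bsz 4 (Fintype.card Q) 1) =
        N * (1 + bsz 4 (Fintype.card Q) 1) + (1 + bsz 4 (Fintype.card Q) 1) := by ring
      omega
    · refine ⟨fun i => cl gs (pn pr 0 (e.symm i)), ?_, ?_, ?_⟩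
      · rw [hbf]
        constructor
        · rintro x ⟨y, hy, rfl⟩
          simp only [Equiv.symm_apply_apply]
          exact (h1 gs hs tr _ _ _ _).1 hy.2
        · intro j
          simp only [Equiv.symm_apply_apply]
          exact cs
      · simp only [Equiv.symm_apply_apply]; rfl
      · simp only [Equiv.symm_apply_apply]; rfl
    · intro V E h hδ
      obtain ⟨μ, hμ, hμ0, hμ1⟩ := hδ
      rw [hbf] at hμ
      obtain ⟨hfacts, hsym⟩ := hμ
      obtain ⟨hh, hh0, hhN, hhP⟩ := us V E (fun c => μ (e (Sum.inr c))) (hsym 0)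
      refine ⟨fun j => Nat.casesOn j h hh, rfl, hhN, ?_⟩
      intro j hj
      cases j with
      | zero =>
        intro v v' hal s s' hr
        have hv : ∀ v : Bool ⊕ Bool,
            pn (fun j => (Nat.casesOn j h hh : Bool → V)) 0 v = μ (e v) := by
          rintro (c | c)
          · cases c
            · exact hμ0.symm
            · exact hμ1.symm
          · change hh 0 c = _
            rw [hh0]
        rw [hv, hv]
        exact hfacts ((e v, s), (e v', s')) ⟨((v, s), (v', s')), ⟨hal, hr⟩, rfl⟩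
      | succ j =>
        intro v v' hal s s' hr
        exact hhP j (by omega) v v' hal s s' hr

theorem pf_G3 (h1 : U_s5_lift) (h2 : U_q4_body) (h3 : U_q5_unfold) (h4 : U_d7_path)
    (h5 : U_d9_mono) : U_g3_realise := by
  intro A P Q L _ k hk gs hs tr pos N pr σ h hsep bd nn δ' hδ
  obtain ⟨gw, gS, gb, gF, gc, gu⟩ := hδ
  obtain ⟨δ, dw, dS, db, dF, dc, du⟩ := g3_ind h1 h2 h3 h4 h5 k hk gs hs tr bd nn δ' gw gS gb gF
    N pr σ gc
  refine ⟨δ, dw, dS, db, dF, dc, ?_⟩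
  intro V E h0 hsat hRP
  obtain ⟨hh, hh0, hhN, hhP⟩ := du V E h0 hsat
  have step : ∀ x y, LS (rho gs tr) N pr σ x y → x.1.1 ≤ N →
      y.1.1 ≤ N ∧ Reach E tr (hh x.1.1 x.1.2, x.2) (hh y.1.1 y.1.2, y.2) := by
    rintro ⟨⟨u, c⟩, s⟩ ⟨⟨v, c'⟩, s'⟩ ⟨hr, hl⟩ hu
    simp only at hr hl hu ⊢
    rcases hl with rfl | ⟨rfl, hv, rfl⟩ | ⟨rfl, hv, rfl⟩
    · refine ⟨hu, ?_⟩
      cases u with
      | zero =>
        rw [hh0]
        exact hRP c c' s s' hr
      | succ u =>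
        exact hhP u (by omega) (Sum.inr c) (Sum.inr c')
          (Or.inr (Or.inr (Or.inr ⟨c, c', rfl, rfl⟩))) s s' hr
    · exact ⟨hv, hhP u (by omega) (Sum.inl c) (Sum.inr (xor c (σ u)))
        (Or.inr (Or.inl ⟨c, rfl, rfl⟩)) s s' hr⟩
    · exact ⟨by omega, hhP v (by omega) (Sum.inr (xor c' (σ v))) (Sum.inl c')
        (Or.inr (Or.inr (Or.inl ⟨c', rfl, rfl⟩))) s s' hr⟩
  have walk : ∀ x y, ReflTransGen (LS (rho gs tr) N pr σ) x y → x.1.1 ≤ N →
      y.1.1 ≤ N ∧ Reach E tr (hh x.1.1 x.1.2, x.2) (hh y.1.1 y.1.2, y.2) := by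
    intro x y hxy hx
    induction hxy with
    | refl => exact ⟨hx, ReflTransGen.refl⟩
    | tail _ hbc ih =>
      obtain ⟨h6, h7⟩ := step _ _ hbc ih.1
      exact ⟨h6, ih.2.trans h7⟩
  have key : ∀ (u v : ℕ) (c c' : Bool) (s s' : Q), (u = 0 ∨ u = N) → (v = 0 ∨ v = N) →
      rho gs tr (pr u c, s) (pr v c', s') → Reach E tr (hh u c, s) (hh v c', s') := by
    intro u v c c' s s' hu hv hr
    exact (walk _ _ (h u v c c' s s' hu hv hr) (by rcases hu with rfl | rfl <;> simp)).2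
  obtain ⟨ν, hν⟩ := gu V E (hh N) hhN (fun c c' s s' hr =>
    key N N c c' s s' (Or.inr rfl) (Or.inr rfl) hr)
  refine ⟨ν, ?_⟩
  rintro (a | c) (b | c') s s' hr
  · exact hν (Sum.inl a) (Sum.inl b) s s' hr
  · obtain ⟨c1, s1, h8, h9⟩ := (hsep a c').1 s s' hr
    have h10 := key N 0 c1 c' s1 s' (Or.inr rfl) (Or.inl rfl) h9
    rw [hh0] at h10
    exact (hν (Sum.inl a) (Sum.inr c1) s s1 h8).trans h10
  · obtain ⟨c1, s1, h8, h9⟩ := (hsep b c).2 s s' hr
    have h10 := key 0 N c c1 s s1 (Or.inl rfl) (Or.inr rfl) h8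
    rw [hh0] at h10
    exact ReflTransGen.trans h10 (hν (Sum.inr c1) (Sum.inl b) s1 s' h9)
  · exact hRP c c' s s' hr

end Pool.Agent.H87.SW
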