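import Pool.Agent.H76.SW.T

set_option autoImplicit false

namespace Pool.Agent.H87.SW
open Pool.Agent.H76.SW Relation

/-- A walk from outside to inside crosses. -/
lemma g4_cross {α : Type} {R : α → α → Prop} (S : α → Prop) {a b : α}
    (h : ReflTransGen R a b) (ha : ¬ S a) (hb : S b) :
    ∃ u v, ReflTransGen R a u ∧ R u v ∧ ReflTransGen R v b ∧ ¬ S u ∧ S v := by
  induction h with
  | refl => exact absurd hb ha
  | @tail b' c' hab hbc ih =>
    by_cases hS : S b'
    · obtain ⟨u, v, h1, h2, h3, h4, h5⟩ := ih hS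
      exact ⟨u, v, h1, h2, h3.tail hbc, h4, h5⟩
    · exact ⟨b', c', hab, hbc, ReflTransGen.refl, hS, hb⟩

section
variable {A P Q : Type} {gs : P → Option (A × Bool) → P → Prop} {tr : Q → A × Bool → Q → Prop}
  {n m : ℕ} {src tgt : Fin m → Fin n} {ch : Fin m → Term A} {p q : Fin n}
  {ι : (Term.node n m src tgt ch p q).Pos → P}

/-- The child is an occurrence. -/
lemma g4_child (ho : Occ gs (Term.node n m src tgt ch p q) ι) (i : Fin m) :
    Occ gs (ch i) (fun x => ι (Sum.inr ⟨i, x⟩)) := by
  refine ⟨?_, ?_, ?_⟩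
  · intro x y hxy
    have h1 := ho.inj hxy
    have h2 := Sum.inr.inj h1
    exact eq_of_heq (Sigma.mk.inj h2).2
  · intro x l y hxy
    exact ho.step (Sum.inr ⟨i, x⟩) l (Sum.inr ⟨i, y⟩) (Or.inl ⟨i, x, y, rfl, rfl, hxy⟩)
  · intro x l y hxy
    rcases ho.out (Sum.inr ⟨i, x⟩) l y hxy with ⟨y', rfl, hst⟩ | ⟨⟨b, hb⟩, -⟩
    · rcases hst with ⟨j, x1, y1, hx1, rfl, h3⟩ | ⟨rfl, j, b, ⟨hx1, -⟩ | ⟨rfl, hx1⟩⟩
      · obtain ⟨rfl, h4⟩ := Sigma.mk.inj (Sum.inr.inj hx1)
        obtain rfl := eq_of_heq h4
        exact Or.inl ⟨y1, rfl, h3⟩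
      · exact absurd hx1 (by simp)
      · obtain ⟨rfl, h4⟩ := Sigma.mk.inj (Sum.inr.inj hx1)
        obtain rfl := eq_of_heq h4
        refine Or.inr ⟨⟨b, rfl⟩, ?_⟩
        rintro ⟨z, hz⟩
        exact absurd (ho.inj hz) (by simp)
    · exact absurd hb (by simp [Term.pt])

/-- The pairs of variables of a step. -/
def g4c (src tgt : Fin m → Fin n) (p q : Fin n) (v v' : Fin n) : Prop :=
  v = v' ∨ (∃ i, (v = src i ∨ v = tgt i) ∧ (v' = src i ∨ v' = tgt i)) ∨
    ((v = p ∨ v = q) ∧ (v' = p ∨ v' = q))

lemma g4c_symm {v v' : Fin n} (h : g4c src tgt p q v v') : g4c src tgt p q v' v := by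
  rcases h with h | ⟨i, h1, h2⟩ | ⟨h1, h2⟩
  · exact Or.inl h.symm
  · exact Or.inr (Or.inl ⟨i, h2, h1⟩)
  · exact Or.inr (Or.inr ⟨h2, h1⟩)

/-- The two ends of the `i`-th atom. -/
def ww (src tgt : Fin m → Fin n) (i : Fin m) (c : Bool) : Fin n := if c then tgt i else src i

/-- The two sides. -/
def CC (src tgt : Fin m → Fin n) (i : Fin m) (c : Bool) (v : Fin n) : Prop :=
  ((torso src tgt).deleteEdges {s(src i, tgt i)}).Reachable (ww src tgt i c) v

lemma CC_self (i : Fin m) (c : Bool) : CC src tgt i c (ww src tgt i c) :=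
  SimpleGraph.Reachable.refl _

lemma CC_disj (hG : (torso src tgt).IsAcyclic) {i : Fin m} (hne : src i ≠ tgt i) {c : Bool}
    {v : Fin n} (h1 : CC src tgt i c v) : ¬ CC src tgt i (!c) v := by
  intro h2
  have hadj : (torso src tgt).Adj (src i) (tgt i) := ⟨hne, i, Or.inl ⟨rfl, rfl⟩⟩
  have h3 := SimpleGraph.isAcyclic_iff_forall_adj_isBridge.1 hG hadj
  rw [SimpleGraph.isBridge_iff] at h3
  have h4 := SimpleGraph.Reachable.trans h1 (SimpleGraph.Reachable.symm h2)
  cases c
  · exact h3 h4
  · exact h3 h4.symm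

/-- Crossing pairs. -/
lemma g4_key {i : Fin m} {c : Bool} {v v' : Fin n} (h : g4c src tgt p q v v') (h1 : ¬ CC src tgt i c v)
    (h2 : CC src tgt i c v') :
    (v = ww src tgt i (!c) ∧ v' = ww src tgt i c) ∨ ((v = p ∨ v = q) ∧ (v' = p ∨ v' = q)) := by
  rcases h with rfl | ⟨j, h3, h4⟩ | h3
  · exact absurd h2 h1
  · left
    have hvv : v ≠ v' := by
      rintro rfl
      exact h1 h2
    have hadj : (torso src tgt).Adj v' v := by
      refine ⟨hvv.symm, j, ?_⟩
      rcases h3 with rfl | rfl <;> rcases h4 with rfl | rfl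
      · exact absurd rfl hvv
      · exact Or.inr ⟨rfl, rfl⟩
      · exact Or.inl ⟨rfl, rfl⟩
      · exact absurd rfl hvv
    by_cases he : s(v', v) = s(src i, tgt i)
    · rw [Sym2.eq_iff] at he
      cases c
      · rcases he with ⟨h5, h6⟩ | ⟨h5, h6⟩
        · exact ⟨h6, h5⟩
        · exfalso
          apply h1
          rw [h6]
          exact CC_self i false
      · rcases he with ⟨h5, h6⟩ | ⟨h5, h6⟩
        · exfalso
          apply h1
          rw [h6]
          exact CC_self i true
        · exact ⟨h6, h5⟩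
    · exfalso
      apply h1
      refine SimpleGraph.Reachable.trans h2 (SimpleGraph.Adj.reachable ?_)
      rw [SimpleGraph.deleteEdges_adj]
      exact ⟨hadj, he⟩
  · exact Or.inr h3

end

theorem pf_G4 (h1 : U_s7_node) (h2 : U_s9_exit) (h3 : U_s10_torso) (h4 : U_d8_forest) :
    U_g4_level := by
  intro A P Q gs hs tr n m src tgt ch p q hw ι ho i
  have hG : (torso src tgt).IsAcyclic := h4 _ hw
  -- silent links
  have hlink : ∀ c s, rho gs tr (ι (Sum.inl (ww src tgt i c)), s)
      (ι (Sum.inr ⟨i, (ch i).pt c⟩), s) := fun c s =>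
    ReflTransGen.single (Or.inl ⟨(h1 gs ho i c).1, rfl⟩)
  have hlink' : ∀ c s, rho gs tr (ι (Sum.inr ⟨i, (ch i).pt c⟩), s)
      (ι (Sum.inl (ww src tgt i c)), s) := fun c s =>
    ReflTransGen.single (Or.inl ⟨(h1 gs ho i c).2.1, rfl⟩)
  have hexit : ∀ (x : (ch i).Pos) (v : Fin n),
      Sep gs tr (fun c => ι (Sum.inr ⟨i, (ch i).pt c⟩)) (ι (Sum.inr ⟨i, x⟩)) (ι (Sum.inl v)) := by
    intro x v
    refine h2 gs hs tr (ch i) _ (g4_child ho i) _ _ ⟨x, rfl⟩ ?_
    rintro ⟨z, hz⟩
    exact absurd (ho.inj hz) (by simp)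
  have hTS : ∀ (x y : Fin n × Q), ReflTransGen
      (TStep src tgt (rho gs tr) (fun v => ι (Sum.inl v)) p q) x y →
      rho gs tr (ι (Sum.inl x.1), x.2) (ι (Sum.inl y.1), y.2) := by
    intro x y hxy
    induction hxy with
    | refl => exact ReflTransGen.refl
    | tail _ hbc ih => exact ih.trans hbc.1
  have hpt : ∀ c', (Term.node n m src tgt ch p q).pt c' = Sum.inl (if c' then q else p) :=
    fun _ => rfl
  by_cases hxy : src i = tgt i
  · -- the two ports coincide
    have hww : ∀ c, ww src tgt i c = ww src tgt i false := by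
      intro c
      cases c
      · rfl
      · exact hxy.symm
    have hP : ∀ c s, rho gs tr (ι (Sum.inr ⟨i, (ch i).pt c⟩), s)
        (ι (Sum.inr ⟨i, (ch i).pt false⟩), s) := fun c s => by
      have h5 := hlink' c s
      rw [hww] at h5
      exact h5.trans (hlink false s)
    have hP' : ∀ c s, rho gs tr (ι (Sum.inr ⟨i, (ch i).pt false⟩), s)
        (ι (Sum.inr ⟨i, (ch i).pt c⟩), s) := fun c s => by
      have h5 := hlink c s
      rw [hww] at h5
      exact (hlink' false s).trans h5
    left
    refine ⟨false, fun x c' => ⟨fun s s' hr => ?_, fun s s' hr => ?_⟩⟩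
    · obtain ⟨a, s1, h5, h6⟩ := (hexit x (if c' then q else p)).1 s s' hr
      exact ⟨(), s1, h5.trans (hP a s1), (hP' a s1).trans h6⟩
    · obtain ⟨a, s1, h5, h6⟩ := (hexit x (if c' then q else p)).2 s s' hr
      exact ⟨(), s1, h5.trans (hP a s1), (hP' a s1).trans h6⟩
  · -- one side without ports
    have hone : ∀ c : Bool, (∀ c' : Bool, ¬ CC src tgt i (!c) (if c' then q else p)) →
        ∀ (x : (ch i).Pos) (c' : Bool),
        Sep gs tr (fun _ : Unit => ι (Sum.inr ⟨i, (ch i).pt c⟩)) (ι (Sum.inr ⟨i, x⟩))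
          (ι ((Term.node n m src tgt ch p q).pt c')) := by
      intro c hc x c'
      have hno : ∀ v, (v = p ∨ v = q) → ¬ CC src tgt i (!c) v := by
        rintro v (rfl | rfl)
        · exact hc false
        · exact hc true
      constructor
      · intro s s' hr
        obtain ⟨a, s1, h5, h6⟩ := (hexit x (if c' then q else p)).1 s s' hr
        by_cases ha : a = c
        · subst ha
          exact ⟨(), s1, h5, h6⟩
        · obtain rfl : a = !c := by cases a <;> cases c <;> simp_all
          have h7 : rho gs tr (ι (Sum.inl (ww src tgt i (!c))), s1)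
              (ι (Sum.inl (if c' then q else p)), s') := (hlink _ s1).trans h6
          have h8 := h3 gs hs tr ho _ _ _ _ h7
          obtain ⟨u, v, g1, g2, g3, g4, g5⟩ := g4_cross
            (fun z : Fin n × Q => ¬ CC src tgt i (!c) z.1) h8 (by
              rw [not_not]; exact CC_self i _) (hc c')
          rw [not_not] at g4
          rcases g4_key (g4c_symm g2.2) g5 g4 with ⟨e1, -⟩ | ⟨-, e1⟩
          · rw [Bool.not_not] at e1
            have g6 := hTS _ _ (g1.tail g2)
            have g7 := hTS _ _ g3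
            rw [e1] at g6 g7
            exact ⟨(), v.2, (h5.trans (hlink' _ s1)).trans (g6.trans (hlink c v.2)),
              (hlink' c v.2).trans g7⟩
          · exact absurd g4 (hno _ e1)
      · intro s s' hr
        obtain ⟨a, s1, h5, h6⟩ := (hexit x (if c' then q else p)).2 s s' hr
        by_cases ha : a = c
        · subst ha
          exact ⟨(), s1, h5, h6⟩
        · obtain rfl : a = !c := by cases a <;> cases c <;> simp_all
          have h7 : rho gs tr (ι (Sum.inl (if c' then q else p)), s)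
              (ι (Sum.inl (ww src tgt i (!c))), s1) := h5.trans (hlink' _ s1)
          have h8 := h3 gs hs tr ho _ _ _ _ h7
          obtain ⟨u, v, g1, g2, g3, g4, g5⟩ := g4_cross
            (fun z : Fin n × Q => CC src tgt i (!c) z.1) h8 (hc c') (CC_self i _)
          rcases g4_key g2.2 g4 g5 with ⟨e1, -⟩ | ⟨-, e1⟩
          · rw [Bool.not_not] at e1
            have g6 := hTS _ _ g1
            have g7 := hTS _ _ (ReflTransGen.head g2 g3)
            rw [e1] at g6 g7
            exact ⟨(), u.2, g6.trans (hlink c u.2),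
              ((hlink' c u.2).trans g7).trans ((hlink _ s1).trans h6)⟩
          · exact absurd g5 (hno _ e1)
    by_cases ha : ∀ c' : Bool, ¬ CC src tgt i true (if c' then q else p)
    · exact Or.inl ⟨false, hone false ha⟩
    by_cases hb : ∀ c' : Bool, ¬ CC src tgt i false (if c' then q else p)
    · exact Or.inl ⟨true, hone true hb⟩
    right
    push Not at ha hb
    obtain ⟨a1, ha⟩ := ha
    obtain ⟨b1, hb⟩ := hb
    -- the side of the port `c` is `xor c τ`
    obtain ⟨τ, hτ⟩ : ∃ τ : Bool, ∀ c, CC src tgt i (xor c τ) (if c then q else p) := by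
      have hab : a1 ≠ b1 := by
        rintro rfl
        exact CC_disj hG hxy hb ha
      refine ⟨b1, fun c => ?_⟩
      by_cases hcb : c = b1
      · subst hcb
        rw [Bool.xor_self]
        exact hb
      · have hca : c = a1 := by
          cases a1 <;> cases b1 <;> cases c <;> simp_all
        subst hca
        have : xor c b1 = true := by cases c <;> cases b1 <;> simp_all
        rw [this]
        exact ha
    set pr : ℕ → Bool → P := fun j c => if j = 0 then ι (Sum.inl (if c then q else p)) else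
      ι (Sum.inr ⟨i, (ch i).pt c⟩) with hpr
    have hp0 : ∀ c, pr 0 c = ι (Sum.inl (if c then q else p)) := fun c => by simp [hpr]
    have hp1 : ∀ c, pr 1 c = ι (Sum.inr ⟨i, (ch i).pt c⟩) := fun c => by simp [hpr]
    refine ⟨pr, fun _ => τ, fun c => hp0 c, fun c => hp1 c, ?_⟩
    have same : ∀ u c c' s s', rho gs tr (pr u c, s) (pr u c', s') →
        ReflTransGen (LS (rho gs tr) 1 pr (fun _ => τ)) ((u, c), s) ((u, c'), s') :=
      fun u c c' s s' hr => ReflTransGen.single ⟨hr, Or.inl rfl⟩
    have up : ∀ c s s', rho gs tr (pr 0 c, s) (pr 1 (xor c τ), s') →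
        ReflTransGen (LS (rho gs tr) 1 pr (fun _ => τ)) ((0, c), s) ((1, xor c τ), s') :=
      fun c s s' hr => ReflTransGen.single ⟨hr, Or.inr (Or.inl ⟨rfl, le_rfl, rfl⟩)⟩
    have down : ∀ c s s', rho gs tr (pr 1 (xor c τ), s) (pr 0 c, s') →
        ReflTransGen (LS (rho gs tr) 1 pr (fun _ => τ)) ((1, xor c τ), s) ((0, c), s') :=
      fun c s s' hr => ReflTransGen.single ⟨hr, Or.inr (Or.inr ⟨rfl, le_rfl, rfl⟩)⟩
    -- the other port lies on the other side
    have hother : ∀ c v, (v = p ∨ v = q) → CC src tgt i (xor c τ) v →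
        v = if c then q else p := by
      intro c v hv hC
      have h5 := hτ (!c)
      have h6 : xor (!c) τ = !(xor c τ) := by cases c <;> cases τ <;> rfl
      rw [h6] at h5
      cases c
      · rcases hv with rfl | rfl
        · rfl
        · exact absurd h5 (CC_disj hG hxy hC)
      · rcases hv with rfl | rfl
        · exact absurd h5 (CC_disj hG hxy hC)
        · rfl
    have hnx : ∀ c, xor (!c) τ = !(xor c τ) := fun c => by cases c <;> cases τ <;> rfl
    have up' : ∀ c s s', rho gs tr (pr 0 c, s) (pr 1 (!(xor c τ)), s') →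
        ReflTransGen (LS (rho gs tr) 1 pr (fun _ => τ)) ((0, c), s) ((1, !(xor c τ)), s') := by
      intro c s s' hr
      rw [hp0, hp1] at hr
      have h7 := hr.trans (hlink' _ s')
      have h8 := h3 gs hs tr ho _ _ _ _ h7
      obtain ⟨u, v, g1, g2, g3, g4, g5⟩ := g4_cross
        (fun z : Fin n × Q => CC src tgt i (!(xor c τ)) z.1) h8 (CC_disj hG hxy (hτ c))
        (CC_self i _)
      rcases g4_key g2.2 g4 g5 with ⟨e1, -⟩ | ⟨e1, e2⟩
      · rw [Bool.not_not] at e1
        have g6 := hTS _ _ g1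
        have g7 := hTS _ _ (ReflTransGen.head g2 g3)
        rw [e1] at g6 g7
        refine (up c s u.2 ?_).trans (same 1 _ _ u.2 s' ?_)
        · rw [hp0, hp1]
          exact g6.trans (hlink _ _)
        · rw [hp1, hp1]
          exact (hlink' _ _).trans (g7.trans (hlink _ _))
      · have g6 := hTS _ _ (g1.tail g2)
        have g7 := hTS _ _ g3
        rw [← hnx] at g5
        have e3 := hother (!c) v.1 e2 g5
        rw [e3] at g6 g7
        refine (same 0 c (!c) s v.2 ?_).trans ?_
        · rw [hp0, hp0]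
          exact g6
        · have h9 := up (!c) v.2 s' (by
            rw [hp0, hp1, hnx]
            exact g7.trans (hlink _ _))
          rw [hnx] at h9
          exact h9
    have down' : ∀ c s s', rho gs tr (pr 1 (!(xor c τ)), s) (pr 0 c, s') →
        ReflTransGen (LS (rho gs tr) 1 pr (fun _ => τ)) ((1, !(xor c τ)), s) ((0, c), s') := by
      intro c s s' hr
      rw [hp0, hp1] at hr
      have h7 := (hlink _ s).trans hr
      have h8 := h3 gs hs tr ho _ _ _ _ h7
      obtain ⟨u, v, g1, g2, g3, g4, g5⟩ := g4_cross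
        (fun z : Fin n × Q => ¬ CC src tgt i (!(xor c τ)) z.1) h8 (by
          rw [not_not]; exact CC_self i _) (CC_disj hG hxy (hτ c))
      rw [not_not] at g4
      rcases g4_key (g4c_symm g2.2) g5 g4 with ⟨e1, -⟩ | ⟨e1, e2⟩
      · rw [Bool.not_not] at e1
        have g6 := hTS _ _ (g1.tail g2)
        have g7 := hTS _ _ g3
        rw [e1] at g6 g7
        refine (same 1 _ (xor c τ) s v.2 ?_).trans (down c v.2 s' ?_)
        · rw [hp1, hp1]
          exact (hlink' _ _).trans (g6.trans (hlink _ _))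
        · rw [hp0, hp1]
          exact (hlink' _ _).trans g7
      · have g6 := hTS _ _ g1
        have g7 := hTS _ _ (ReflTransGen.head g2 g3)
        rw [← hnx] at g4
        have e3 := hother (!c) u.1 e2 g4
        rw [e3] at g6 g7
        have h9 := down (!c) s u.2 (by
          rw [hp0, hp1, hnx]
          exact (hlink' _ _).trans g6)
        rw [hnx] at h9
        refine h9.trans (same 0 (!c) c u.2 s' ?_)
        rw [hp0, hp0]
        exact g7
    intro u v c c' s s' hu hv hr
    have hcases : ∀ a b : Bool, b = xor a τ ∨ b = !(xor a τ) := by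
      intro a b
      cases a <;> cases b <;> cases τ <;> simp
    rcases Nat.le_one_iff_eq_zero_or_eq_one.1 hu with rfl | rfl <;>
      rcases Nat.le_one_iff_eq_zero_or_eq_one.1 hv with rfl | rfl
    · exact same 0 c c' s s' hr
    · rcases hcases c c' with rfl | rfl
      · exact up c s s' hr
      · exact up' c s s' hr
    · rcases hcases c' c with rfl | rfl
      · exact down c' s s' hr
      · exact down' c' s s' hr
    · exact same 1 c c' s s' hr

end Pool.Agent.H87.SW
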